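import Pool.Agent.X234.TD.Appr
import Pool.Agent.Helper227.CD.Pos

set_option autoImplicit false

/-!
# MP_39a050_lc, Q1: no graph of a trigonometric polynomial has a one-point dimension spectrum

For every universal prefix-free machine, every computable coding of the rational vectors and every
trigonometric polynomial `f` there is a real `x` such that the points `(x, f x)` and `(0, f 0)` of
the graph of `f` have different effective Hausdorff dimensions.
-/

namespace Pool.Agent.Results.MP_39a050_lc.TrigSpectra

open Pool.Agent.X234.TD

theorem result : (∃ U, PrefixUniversal U) ∧ (∃ code, IsCoding code) ∧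
    ∀ U, PrefixUniversal U → ∀ code, IsCoding code → ∀ (m : ℕ) (a b : ℕ → ℝ),
      ∃ x y : ℝ, dim U code (x, trig m a b x) ≠ dim U code (y, trig m a b y) := by
  refine ⟨Pool.Agent.Helper227.exists_isUniversal, exists_coding, ?_⟩
  intro U hU code hc m a b
  obtain ⟨x, hx⟩ := trig_two hU hc m a b
  exact ⟨x, 0, hx⟩

end Pool.Agent.Results.MP_39a050_lc.TrigSpectra
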